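import Mathlib
import Pool.Agent.W114.PQ.Stm

/-! C2: exactly one exact prime divisor -/

set_option autoImplicit false

namespace Pool.Agent.W407.PQ.C2

open Finset Filter Topology
open Pool.Agent.W114.PQ
open Pool.Agent.H951R4.OD (Ex)

/-- Chebyshev for large quotients -/
lemma cheb (X g : ℕ) (hg : 1 ≤ g) (hX : 2 ≤ X) (h : g ^ 2 ≤ X) :
    (Nat.primeCounting (X / g) : ℝ) * Real.log X ≤ 10 * ((X : ℝ) / g) := by
  set x : ℝ := (X : ℝ) / g with hx
  have hg0 : (0 : ℝ) < g := by exact_mod_cast hg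
  have hXr : (2 : ℝ) ≤ X := by exact_mod_cast hX
  have hgX : (g : ℝ) ^ 2 ≤ X := by exact_mod_cast h
  have hx2 : (X : ℝ) ≤ x ^ 2 := by
    rw [hx, div_pow, le_div_iff₀ (by positivity)]
    nlinarith
  have hx0 : 0 < x := by positivity
  have hx1 : 1 < x := by nlinarith
  have hfl : ⌊x⌋₊ = X / g := Nat.floor_div_eq_div X g
  have h1 := Chebyshev.pi_le_log4_mul_div hx1
  rw [hfl] at h1
  have hl : Real.log X ≤ 2 * Real.log x := by
    have := Real.log_le_log (by positivity) hx2
    rw [Real.log_pow] at this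
    exact_mod_cast this
  have hs : Real.log √x = Real.log x / 2 := Real.log_sqrt hx0.le
  have hlx : 0 < Real.log x := Real.log_pos hx1
  have h2 : √x * Real.log x ≤ 2 * x := by
    have h3 : Real.log √x ≤ √x :=
      (Real.log_le_sub_one_of_pos (Real.sqrt_pos.2 hx0)).trans (by linarith)
    rw [hs] at h3
    nlinarith [Real.sq_sqrt hx0.le, Real.sqrt_nonneg x]
  have h4 : Real.log 4 ≤ 1.4 := by
    have : Real.log 4 = 2 * Real.log 2 := by
      rw [show (4 : ℝ) = 2 ^ 2 by norm_num, Real.log_pow]; norm_num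
    rw [this]
    have := Real.log_two_lt_d9
    linarith
  have h40 : 0 ≤ Real.log 4 := Real.log_nonneg (by norm_num)
  rw [hs] at h1
  have h5 : 0 ≤ Real.log 4 * x / (Real.log x / 2) + √x := by positivity
  calc (Nat.primeCounting (X / g) : ℝ) * Real.log X
      ≤ (Real.log 4 * x / (Real.log x / 2) + √x) * Real.log X :=
        mul_le_mul_of_nonneg_right h1 (Real.log_nonneg (by linarith))
    _ ≤ (Real.log 4 * x / (Real.log x / 2) + √x) * (2 * Real.log x) :=
        mul_le_mul_of_nonneg_left hl h5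
    _ = 4 * (Real.log 4 * x) + 2 * (√x * Real.log x) := by
        field_simp
        ring
    _ ≤ 10 * x := by nlinarith

/-- the count for one cofactor -/
noncomputable def NN (D : Dat) (g X : ℕ) : ℕ :=
  {p : ℕ | p.Prime ∧ p ≤ X / g ∧ Pass D (g * p)}.ncard

lemma NN_le_pi (D : Dat) (g X : ℕ) : NN D g X ≤ Nat.primeCounting (X / g) := by
  rw [← Nat.primesLE_card_eq_primeCounting, ← Set.ncard_coe_finset]
  refine Set.ncard_le_ncard ?_ (Finset.finite_toSet _)
  intro p hp
  simp only [Finset.mem_coe, Nat.mem_primesLE]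
  exact ⟨hp.2.1, hp.1⟩

lemma NN_le (D : Dat) (g X : ℕ) : NN D g X ≤ X / g := by
  have : (Finset.Icc 1 (X / g)).card = X / g := by simp
  rw [← this, ← Set.ncard_coe_finset]
  refine Set.ncard_le_ncard ?_ (Finset.finite_toSet _)
  intro p hp
  simp only [Finset.mem_coe, Finset.mem_Icc]
  exact ⟨hp.1.one_le, hp.2.1⟩

lemma fin_B (D : Dat) (g X : ℕ) : {p : ℕ | p.Prime ∧ p ≤ X / g ∧ Pass D (g * p)}.Finite :=
  (Set.finite_le_nat (X / g)).subset fun _ hp => hp.2.1

/-- the set counted -/
def A (D : Dat) (X : ℕ) : Set ℕ := {n : ℕ | 1 ≤ n ∧ n ≤ X ∧ Pass D n ∧ ¬ n.Prime ∧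
    ∃ r : ℕ, Ex D.c0 n r ∧ ∀ r' : ℕ, Ex D.c0 n r' → r' = r}

open scoped Classical in
lemma A_le (gd : S_GD) (D : Dat) (X : ℕ) : (A D X).ncard ≤
    ∑ g ∈ (Icc 2 X).filter (fun g => ∀ p, ¬ Ex D.c0 g p), NN D g X := by
  set S := (Icc 2 X).filter (fun g => ∀ p, ¬ Ex D.c0 g p) with hS
  have h1 : A D X ⊆ ↑(S.biUnion (fun g => (fin_B D g X).toFinset.image (fun p => g * p))) := by
    intro n hn
    obtain ⟨hn1, hnX, hP, hnp, r, hr, hu⟩ := hn
    obtain ⟨g, hg1, hng, hgE, _⟩ := gd D.c0 n hn1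
    have hEP : EP D.c0 n n = {r} := by
      ext p
      simp only [EP, Finset.mem_filter, Finset.mem_Icc, Finset.mem_singleton]
      constructor
      · rintro ⟨_, h⟩
        exact hu p h
      · rintro rfl
        exact ⟨⟨hr.1.one_le, Nat.le_of_dvd hn1 hr.2.2.1⟩, hr⟩
    rw [hEP, Finset.prod_singleton] at hng
    have hg2 : 2 ≤ g := by
      rcases Nat.lt_or_ge g 2 with h | h
      · exfalso
        have : g = 1 := by omega
        rw [this, one_mul] at hng
        exact hnp (hng ▸ hr.1)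
      · exact h
    have hr1 : 1 ≤ r := hr.1.one_le
    have hgX : g ≤ X := le_trans (by rw [hng]; exact Nat.le_mul_of_pos_right g hr1) hnX
    rw [Finset.mem_coe, Finset.mem_biUnion]
    refine ⟨g, ?_, ?_⟩
    · rw [hS, Finset.mem_filter, Finset.mem_Icc]
      exact ⟨⟨hg2, hgX⟩, hgE⟩
    · rw [Finset.mem_image]
      refine ⟨r, ?_, hng.symm⟩
      rw [Set.Finite.mem_toFinset]
      refine ⟨hr.1, ?_, by rw [← hng]; exact hP⟩
      rw [Nat.le_div_iff_mul_le (by omega), mul_comm, ← hng]
      exact hnX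
  calc (A D X).ncard
      ≤ (↑(S.biUnion (fun g => (fin_B D g X).toFinset.image (fun p => g * p))) : Set ℕ).ncard :=
        Set.ncard_le_ncard h1 (Finset.finite_toSet _)
    _ = (S.biUnion (fun g => (fin_B D g X).toFinset.image (fun p => g * p))).card :=
        Set.ncard_coe_finset _
    _ ≤ ∑ g ∈ S, ((fin_B D g X).toFinset.image (fun p => g * p)).card := Finset.card_biUnion_le
    _ ≤ ∑ g ∈ S, NN D g X := by
        refine Finset.sum_le_sum fun g _ => ?_
        refine Finset.card_image_le.trans (le_of_eq ?_)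
        unfold NN
        rw [Set.ncard_eq_toFinset_card _ (fin_B D g X)]

theorem c2 (cf : S_CF) (gs : S_GS) (gd : S_GD) : S_C2 := by
  intro D hD
  classical
  obtain ⟨C, hC1, hC⟩ := gs D.c0 hD.c0_pos
  set P : ℕ → Prop := fun g => ∀ p, ¬ Ex D.c0 g p with hP
  set u : ℕ → ℕ → ℝ := fun X g =>
    if P g ∧ 2 ≤ g ∧ g ^ 2 ≤ X then (NN D g X : ℝ) * Real.log X / X else 0 with hu
  set bd : ℕ → ℝ := fun g => if P g ∧ 1 ≤ g then 10 / (g : ℝ) else 0 with hbd
  have hlog : ∀ X : ℕ, 0 ≤ Real.log X := fun X => Real.log_natCast_nonneg X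
  have hbs : Summable bd := by
    refine summable_of_sum_le (c := 10 * C) (fun g => ?_) (fun s => ?_)
    · simp only [hbd, Pi.zero_apply]
      split_ifs <;> positivity
    · simp only [hbd]
      rw [← Finset.sum_filter]
      have := hC 1 (s.filter (fun g => P g ∧ 1 ≤ g)) le_rfl (by
        intro g hg
        rw [Finset.mem_filter] at hg
        exact ⟨by exact_mod_cast hg.2.2, hg.2.1⟩)
      rw [Real.one_rpow, mul_one] at this
      calc ∑ g ∈ s.filter (fun g => P g ∧ 1 ≤ g), 10 / (g : ℝ)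
          = 10 * ∑ g ∈ s.filter (fun g => P g ∧ 1 ≤ g), (1 : ℝ) / g := by
            rw [Finset.mul_sum]
            refine Finset.sum_congr rfl fun g _ => ?_
            ring
        _ ≤ 10 * C := by linarith
  have hu0 : ∀ X g, 0 ≤ u X g := by
    intro X g
    simp only [hu]
    have := hlog X
    split_ifs <;> positivity
  have hub : ∀ X, 2 ≤ X → ∀ g, u X g ≤ bd g := by
    intro X hX g
    simp only [hu, hbd]
    split_ifs with h1 h2 h2
    · have hg1 : 1 ≤ g := by omega
      have hX0 : (0 : ℝ) < X := by positivity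
      have hg0 : (0 : ℝ) < g := by exact_mod_cast hg1
      have k1 := cheb X g hg1 hX h1.2.2
      have k2 : (NN D g X : ℝ) ≤ Nat.primeCounting (X / g) := by exact_mod_cast NN_le_pi D g X
      rw [div_le_div_iff₀ hX0 hg0]
      have k3 : (NN D g X : ℝ) * Real.log X ≤ 10 * ((X : ℝ) / g) :=
        (mul_le_mul_of_nonneg_right k2 (hlog X)).trans k1
      calc (NN D g X : ℝ) * Real.log X * g ≤ 10 * ((X : ℝ) / g) * g :=
            mul_le_mul_of_nonneg_right k3 hg0.le
        _ = 10 * X := by field_simp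
    · exact absurd ⟨h1.1, by omega⟩ h2
    · positivity
    · exact le_refl _
  have hlim : Tendsto (fun X => ∑' g, u X g) atTop (𝓝 0) := by
    have := tendsto_tsum_of_dominated_convergence (𝓕 := atTop) (f := u) (g := fun _ => (0 : ℝ))
      (bound := bd) hbs (fun g => ?_) (by
        filter_upwards [eventually_ge_atTop 2] with X hX g
        rw [Real.norm_eq_abs, abs_of_nonneg (hu0 X g)]
        exact hub X hX g)
    · simpa using this
    · by_cases hg : P g ∧ 2 ≤ g
      · have h1 := cf D hD g hg.2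
        refine squeeze_zero (fun X => hu0 X g) (fun X => ?_) h1
        simp only [hu]
        split_ifs
        · exact le_refl _
        · have := hlog X
          positivity
      · have : (fun X => u X g) = fun _ => 0 := by
          funext X
          simp only [hu]
          rw [if_neg]
          rintro ⟨a, b, _⟩
          exact hg ⟨a, b⟩
        rw [this]
        exact tendsto_const_nhds
  have hlim2 : Tendsto (fun X : ℕ => C * (Real.log X * (X : ℝ) ^ (-(1 / 6) : ℝ))) atTop (𝓝 0) := by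
    have h1 : Tendsto (fun x : ℝ => Real.log x * x ^ (-(1 / 6) : ℝ)) atTop (𝓝 0) := by
      have h2 := (isLittleO_log_rpow_atTop (show (0 : ℝ) < 1 / 6 by norm_num)).tendsto_div_nhds_zero
      refine h2.congr' ?_
      filter_upwards [eventually_gt_atTop 0] with x hx
      rw [Real.rpow_neg hx.le, div_eq_mul_inv]
    have := (h1.comp tendsto_natCast_atTop_atTop).const_mul C
    rw [mul_zero] at this
    exact this
  have hsum := hlim.add hlim2
  rw [add_zero] at hsum
  refine squeeze_zero' (Eventually.of_forall fun X => ?_) ?_ hsum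
  · have := hlog X
    positivity
  · filter_upwards [eventually_ge_atTop 2] with X hX
    have hX0 : (0 : ℝ) < X := by positivity
    have hXr : (1 : ℝ) ≤ X := by
      have : (2 : ℝ) ≤ X := by exact_mod_cast hX
      linarith
    have h1 : ((A D X).ncard : ℝ) ≤ ∑ g ∈ (Icc 2 X).filter P, (NN D g X : ℝ) := by
      exact_mod_cast A_le gd D X
    have h2 : ∑ g ∈ (Icc 2 X).filter P, (NN D g X : ℝ) =
        ∑ g ∈ ((Icc 2 X).filter P).filter (fun g => g ^ 2 ≤ X), (NN D g X : ℝ) +
        ∑ g ∈ ((Icc 2 X).filter P).filter (fun g => ¬ g ^ 2 ≤ X), (NN D g X : ℝ) :=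
      (Finset.sum_filter_add_sum_filter_not _ _ _).symm
    have h3 : (∑ g ∈ ((Icc 2 X).filter P).filter (fun g => g ^ 2 ≤ X), (NN D g X : ℝ)) *
        Real.log X / X ≤ ∑' g, u X g := by
      have hsu : Summable (u X) := Summable.of_nonneg_of_le (hu0 X) (hub X hX) hbs
      refine le_trans (le_of_eq ?_) (hsu.sum_le_tsum
        (((Icc 2 X).filter P).filter (fun g => g ^ 2 ≤ X)) (fun g _ => hu0 X g))
      rw [Finset.sum_mul, Finset.sum_div]
      refine Finset.sum_congr rfl fun g hg => ?_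
      simp only [Finset.mem_filter, Finset.mem_Icc] at hg
      simp only [hu]
      rw [if_pos ⟨hg.1.2, hg.1.1.1, hg.2⟩]
    have h4 : (∑ g ∈ ((Icc 2 X).filter P).filter (fun g => ¬ g ^ 2 ≤ X), (NN D g X : ℝ)) *
        Real.log X / X ≤ C * (Real.log X * (X : ℝ) ^ (-(1 / 6) : ℝ)) := by
      have k1 : ∑ g ∈ ((Icc 2 X).filter P).filter (fun g => ¬ g ^ 2 ≤ X), (NN D g X : ℝ) ≤
          X * ∑ g ∈ ((Icc 2 X).filter P).filter (fun g => ¬ g ^ 2 ≤ X), (1 : ℝ) / g := by
        rw [Finset.mul_sum]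
        refine Finset.sum_le_sum fun g _ => ?_
        have : (NN D g X : ℝ) ≤ ((X / g : ℕ) : ℝ) := by exact_mod_cast NN_le D g X
        refine this.trans (Nat.cast_div_le.trans (le_of_eq (by ring)))
      have k2 := hC (√X) (((Icc 2 X).filter P).filter (fun g => ¬ g ^ 2 ≤ X))
        (by rw [Real.one_le_sqrt]; exact hXr) (by
          intro g hg
          simp only [Finset.mem_filter, Finset.mem_Icc, not_le] at hg
          refine ⟨?_, hg.1.2⟩
          rw [Real.sqrt_le_left (by positivity)]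
          exact_mod_cast hg.2.le)
      have k3 : (√(X : ℝ)) ^ (-(1 / 3) : ℝ) = (X : ℝ) ^ (-(1 / 6) : ℝ) := by
        rw [Real.sqrt_eq_rpow, ← Real.rpow_mul hX0.le]
        norm_num
      rw [k3] at k2
      have k4 : 0 ≤ Real.log X := hlog X
      rw [div_le_iff₀ hX0]
      calc (∑ g ∈ ((Icc 2 X).filter P).filter (fun g => ¬ g ^ 2 ≤ X), (NN D g X : ℝ)) *
            Real.log X ≤ (X * (C * (X : ℝ) ^ (-(1 / 6) : ℝ))) * Real.log X :=
            mul_le_mul_of_nonneg_right (k1.trans (mul_le_mul_of_nonneg_left k2 hX0.le)) k4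
        _ = _ := by ring
    calc ((A D X).ncard : ℝ) * Real.log X / X
        ≤ (∑ g ∈ (Icc 2 X).filter P, (NN D g X : ℝ)) * Real.log X / X := by
          refine div_le_div_of_nonneg_right (mul_le_mul_of_nonneg_right h1 (hlog X)) hX0.le
      _ = (∑ g ∈ ((Icc 2 X).filter P).filter (fun g => g ^ 2 ≤ X), (NN D g X : ℝ)) *
            Real.log X / X +
          (∑ g ∈ ((Icc 2 X).filter P).filter (fun g => ¬ g ^ 2 ≤ X), (NN D g X : ℝ)) *
            Real.log X / X := by rw [h2]; ring
      _ ≤ _ := add_le_add h3 h4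

end Pool.Agent.W407.PQ.C2
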